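import Pool.Agent.helper35.DR.SpecA
import Pool.Agent.helper35.DR.SpecT
import Pool.Agent.helper35.DR.SpecR
import Pool.Agent.helper35.DR.SpecZ

set_option autoImplicit false

namespace Pool.Agent.DR

open Pool.Agent.helper58.DC Pool.Agent.DI

lemma ZFL_nat {G : Type} [Group G] {H : Subgroup G} {ψ : G → ℂ} (h : ψ ∈ IrrOn H) :
    ∃ n : ℕ, ψ 1 = n := by
  obtain ⟨-, V, _, _, _, ρ, -, hρ⟩ := h
  refine ⟨Module.finrank ℂ V, ?_⟩
  have h1 := congrFun hρ 1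
  rw [Representation.char_one] at h1
  exact h1.symm

lemma ZFL_stab {G E A : Type} [Group G] [Group E] [Group A] (X : Extension G E A) (n : ℕ)
    (C : Finset (Subgroup G)) (ψ : G → ℂ) :
    (XC X n).stab C ψ = (X.stab C ψ).comap (fcE X n) := rfl

lemma ZFL_map {G E A : Type} [Group G] [Group E] [Group A] (X : Extension G E A) (n : ℕ)
    (C : Finset (Subgroup G)) (ψ : G → ℂ) (h : (X.stab C ψ).map X.proj = ⊤) :
    ((XC X n).stab C ψ).map (XC X n).proj = ⊤ := by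
  rw [eq_top_iff]
  intro c _
  have h1 : c.a ∈ (X.stab C ψ).map X.proj := by rw [h]; trivial
  obtain ⟨e, he, hec⟩ := h1
  exact ⟨⟨(e, c), hec⟩, he, rfl⟩

lemma ZFL_coc {A : Type} [Group A] (n : ℕ) (α : A → A → ℂˣ) (h : α ∈ Coc A) :
    (fun x y : Cv A n => α x.a y.a) ∈ Coc (Cv A n) := by
  obtain ⟨h1, h2, h3⟩ := h
  exact ⟨fun a b c => h1 a.a b.a c.a, fun a => h2 a.a, fun a => h3 a.a⟩

theorem ZFL (hTEX : TEX_stmt) (hRST : RST_stmt) (hTIF : TIF_stmt) (hTIN : TIN_stmt)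
    (hZGN : ZGN_stmt) (hECD : ECD_stmt) (hZFN : ZFN_stmt) (hB13 : Pool.Agent.DI.B13_stmt) :
    ZFL_stmt := by
  intro G E A _ _ _ _ _ _ X p _ N hN r hr hrp hNr C hC hCne ψ hψ hst D
  obtain ⟨n, hn⟩ : ∃ n, n = r ^ padicValNat r (Nat.card A) := ⟨_, rfl⟩
  have hn1 : 1 ≤ n := by rw [hn]; exact Nat.one_le_pow _ _ hr.pos
  obtain ⟨-, -, hfC, -, -, -, hZr, hcard, -, hFC⟩ := hZFN A n hn1
  obtain ⟨hfF, -, -, -, -⟩ := hFC G E X
  -- the cocycle of `X`
  obtain ⟨-, -, hR⟩ := hRST G E A X C hC hCne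
  obtain ⟨-, hRk, hRi⟩ := hR ψ hψ
  have hψE : ext0 X.inc ψ ∈ IrrOn (X.stab C ψ ⊓ X.proj.ker) := by
    rw [hRk]
    exact ((hB13 G E p X.inc X.inc_injective (nrm C)).2.1 ψ).1 hψ
  obtain ⟨α, hα, hAsc⟩ := hTEX E A X.proj (X.stab C ψ) hst (ext0 X.inc ψ) hψE hRi
  have hAsc' := hTIF G E A X n (X.stab C ψ) ψ α hAsc
  rw [← ZFL_stab X n C ψ] at hAsc'
  -- the cover
  obtain ⟨-, -, hR'⟩ := hRST G (FC X n) (Cv A n) (XC X n) C hC hCne
  obtain ⟨-, hRk', hRi'⟩ := hR' ψ hψ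
  have hB := hB13 G (FC X n) p (XC X n).inc (XC X n).inc_injective (nrm C)
  have hψF : ext0 (XC X n).inc ψ ∈ IrrOn ((XC X n).stab C ψ ⊓ (XC X n).proj.ker) := by
    rw [hRk']
    exact (hB.2.1 ψ).1 hψ
  have hst' := ZFL_map X n C ψ hst
  haveI hNn : (N.comap (prC A n)).Normal := hN.comap _
  -- the order of `Nh`
  have hNc := hcard N
  obtain ⟨j, hj⟩ := hZr r hr ⟨_, hn⟩
  have hpN : padicValNat p (Nat.card (N.comap (prC A n))) = 0 := by
    haveI : Fact r.Prime := ⟨hr⟩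
    obtain ⟨i, hi⟩ := hNr.exists_card_eq
    rw [hNc, hi, hj, ← pow_add]
    refine padicValNat.eq_zero_of_not_dvd (fun hd => ?_)
    have h1 := (Fact.out : p.Prime).dvd_of_dvd_pow hd
    exact hrp ((Nat.prime_dvd_prime_iff_eq (Fact.out : p.Prime) hr).1 h1).symm
  -- the order of the subgroup
  have hord : Nat.card ((XC X n).stab C ψ ⊓ (N.comap (prC A n)).comap (XC X n).proj :
      Subgroup (FC X n)) = Nat.card (nrm C) * (Nat.card N * Nat.card (Zn A n)) := by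
    rw [hECD (FC X n) (Cv A n) (XC X n).proj ((XC X n).stab C ψ) (N.comap (prC A n)), hst', top_inf_eq,
      hRk', hNc]
    congr 1
    exact Nat.card_congr ((nrm C).equivMapOfInjective (XC X n).inc (XC X n).inc_injective).symm.toEquiv
  -- the defect
  obtain ⟨m, hm⟩ := ZFL_nat hψ
  obtain ⟨d, hd⟩ : ∃ d : ℤ, d = (padicValNat p (Nat.card (nrm C)) : ℤ) - padicValNat p m := ⟨_, rfl⟩
  have hdef : Defect p (nrm C) ψ d := ⟨m, hm, hd⟩
  have hdefD : Defect p (nrm C) ψ D ↔ D = d := by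
    constructor
    · rintro ⟨m', hm', hD⟩
      have h1 : (m : ℂ) = m' := by rw [← hm, ← hm']
      have h2 : m = m' := by exact_mod_cast h1
      rw [hD, hd, h2]
    · rintro rfl
      exact hdef
  have hdefF : Defect p ((XC X n).stab C ψ ⊓ (XC X n).proj.ker) (ext0 (XC X n).inc ψ) d := by
    rw [hRk']
    exact (hB.2.2.2.2.1 ψ d).1 hdef
  have hinn := hTIN (FC X n) (Cv A n) (XC X n).proj ((XC X n).stab C ψ) hst' (ext0 (XC X n).inc ψ) hψF
    _ (ZFL_coc n α hα) hAsc' (N.comap (prC A n)) hNn p d D hdefF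
  rw [hpN] at hinn
  subst hn
  have hG := hZGN p A N hN r hr hrp hNr α hα (d - D)
  have hP : (fun k : ℕ => (padicValNat p k : ℤ) = d + ((0 : ℕ) : ℤ) - D) =
      (fun k : ℕ => (padicValNat p k : ℤ) = d - D) := by
    funext k
    rw [Nat.cast_zero, add_zero]
  rw [hP] at hinn
  unfold relT
  rw [hinn, hord]
  by_cases hDd : D = d
  · rw [if_pos (hdefD.2 hDd), hG.1 (by omega)]
    push_cast
    ring
  · rw [if_neg (fun h => hDd (hdefD.1 h)), hG.2 (by omega)]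
    push_cast
    ring

end Pool.Agent.DR
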